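import Mathlib
import Pool.Agent.H7Illum3

/-!
For every `d ≥ 4` there are convex bodies in `ℝ^d` with arbitrarily large primitive inner
illuminating sets and (the same bodies) arbitrarily large primitive outer illuminating sets.
-/

namespace Pool.Agent.Results.MP_26bcd4_gt.UnboundedPrimitive

open Pool.Agent.H7Illum

/-- A convex body: a compact convex set with nonempty interior. -/
def ConvexBd {d : ℕ} (K : Set (EuclideanSpace ℝ (Fin d))) : Prop :=
  IsCompact K ∧ Convex ℝ K ∧ (interior K).Nonempty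

/-- `A ⊆ bd K` is an inner illuminating set of `K`. -/
def InnerIlluminating {d : ℕ} (K A : Set (EuclideanSpace ℝ (Fin d))) : Prop :=
  A ⊆ frontier K ∧ ∀ x ∈ frontier K, ∃ a ∈ A, ∃ ε : ℝ, 0 < ε ∧ ε < 1 ∧
    (1 - ε) • x + ε • a ∈ interior K

/-- A set `U` of unit vectors is an outer illuminating set of `K`. -/
def OuterIlluminating {d : ℕ} (K U : Set (EuclideanSpace ℝ (Fin d))) : Prop :=
  (∀ u ∈ U, ‖u‖ = 1) ∧ ∀ x ∈ frontier K, ∃ u ∈ U, ∃ ε : ℝ, 0 < ε ∧ ε < 1 ∧
    x + ε • u ∈ interior K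

/-- An inner illuminating set none of whose proper subsets is an inner illuminating set. -/
def PrimitiveInner {d : ℕ} (K A : Set (EuclideanSpace ℝ (Fin d))) : Prop :=
  InnerIlluminating K A ∧ ∀ B, B ⊂ A → ¬ InnerIlluminating K B

/-- An outer illuminating set none of whose proper subsets is an outer illuminating set. -/
def PrimitiveOuter {d : ℕ} (K U : Set (EuclideanSpace ℝ (Fin d))) : Prop :=
  OuterIlluminating K U ∧ ∀ W, W ⊂ U → ¬ OuterIlluminating K W

/-- For every dimension `d ≥ 4` and every `N` there is a convex body in `ℝ^d` that has a (finite)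
primitive inner illuminating set with at least `N` elements and a (finite) primitive outer
illuminating set with at least `N` elements. -/
theorem result (d : ℕ) (hd : 4 ≤ d) (N : ℕ) :
    ∃ K : Set (EuclideanSpace ℝ (Fin d)), ConvexBd K ∧
      (∃ A, PrimitiveInner K A ∧ A.Finite ∧ N ≤ A.ncard) ∧
      (∃ U, PrimitiveOuter K U ∧ U.Finite ∧ N ≤ U.ncard) := by
  obtain ⟨m, rfl⟩ : ∃ m, d = m + 4 := ⟨d - 4, by omega⟩
  obtain ⟨V, c, hg, hN⟩ := exists_good N
  have hfr : frontier (Body m V c) ⊆ Body m V c := body_compact.isClosed.frontier_subset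
  refine ⟨Body m V c, ⟨body_compact, body_convex, ⟨0, zero_int hg⟩⟩, ?_, ?_⟩
  · have hA : InnerIlluminating (Body m V c) (A0 m V) :=
      ⟨A0_frontier hg, fun x hx => A0_illum hg x (hfr hx)⟩
    obtain ⟨B, hBA, hB, hmin⟩ := exists_minimal_sub (InnerIlluminating (Body m V c)) _ A0_finite hA
    refine ⟨B, ⟨hB, hmin⟩, A0_finite.subset hBA, ?_⟩
    have hsub : (fun v => (Yv v : Ed m)) '' (V : Set (ℝ × ℝ)) ⊆ B := by
      rintro _ ⟨v, hv, rfl⟩
      obtain ⟨b, hb, ε, _, _, hint⟩ := hB.2 _ (X_frontier hg hv)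
      have := A0_private hg hv (hBA hb) hint
      simp only
      rw [← this]
      exact hb
    calc N ≤ V.card := hN
      _ = (V : Set (ℝ × ℝ)).ncard := (Set.ncard_coe_finset V).symm
      _ = ((fun v => (Yv v : Ed m)) '' (V : Set (ℝ × ℝ))).ncard :=
        (Set.InjOn.ncard_image (Y_inj hg)).symm
      _ ≤ B.ncard := Set.ncard_le_ncard hsub (A0_finite.subset hBA)
  · have hU : OuterIlluminating (Body m V c) (U0 m V) :=
      ⟨U0_unit hg, fun x hx => U0_illum hg x (hfr hx)⟩
    obtain ⟨B, hBU, hB, hmin⟩ := exists_minimal_sub (OuterIlluminating (Body m V c)) _ U0_finite hU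
    refine ⟨B, ⟨hB, hmin⟩, U0_finite.subset hBU, ?_⟩
    have hsub : (fun v => nrm (Yv v - Xv v : Ed m)) '' (V : Set (ℝ × ℝ)) ⊆ B := by
      rintro _ ⟨v, hv, rfl⟩
      obtain ⟨b, hb, ε, hε, _, hint⟩ := hB.2 _ (X_frontier hg hv)
      have := U0_private hg hv (hBU hb) hε hint
      simp only
      rw [← this]
      exact hb
    calc N ≤ V.card := hN
      _ = (V : Set (ℝ × ℝ)).ncard := (Set.ncard_coe_finset V).symm
      _ = ((fun v => nrm (Yv v - Xv v : Ed m)) '' (V : Set (ℝ × ℝ))).ncard :=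
        (Set.InjOn.ncard_image (D_inj hg)).symm
      _ ≤ B.ncard := Set.ncard_le_ncard hsub (U0_finite.subset hBU)

end Pool.Agent.Results.MP_26bcd4_gt.UnboundedPrimitive
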